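import Pool.Agent.X184.SS.Stm2

set_option autoImplicit false

namespace Pool.Agent.X126.SS

open Finset
open Pool.Agent.X184.SS

theorem t_JOINT : S_JOINT := by
  intro hU hH hL n N hN ε hε d u
  obtain ⟨p, hp⟩ := hL n N hN ε hε
  have key : ∀ B d' : ℕ, ∃ (z : ℕ → ℕ →₀ ℝ) (H : ℕ → Finset ℕ) (M : ℕ),
      (∀ l j, 0 ≤ z l j) ∧ (∀ l < d', ∑ j ∈ (z l).support, z l j = 1) ∧
      (∀ l, d' ≤ l → z l = 0) ∧
      (∀ l, ∀ j ∈ (z l).support, j ∈ N ∧ B ≤ j ∧ j < M) ∧
      (∀ l l', l ≠ l' → Disjoint (z l).support (z l').support) ∧
      (∀ l, ∀ j ∈ (z l).support, ∃ i < d' * p, j ∈ H i) ∧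
      (∀ i, H i ∈ Sch n) ∧
      (∀ i i', i < i' → i' < d' * p → ∀ a ∈ H i, ∀ b ∈ H i', a < b) ∧
      (∀ i, i < d' * p → ∀ a ∈ H i, B ≤ a ∧ a < M) ∧ B ≤ M ∧
      ∀ l, ∀ F ∈ Sch n, ∑ j ∈ F, z l j ≤ ε := by
    intro B d'
    have hE : (∅ : Finset ℕ) ∈ Sch n := by
      obtain ⟨z, G, h1, h2, h3, h4, h5, h6, h7, h8⟩ := hp 0
      rcases Nat.eq_zero_or_pos p with h0 | h0
      · subst h0
        have : z.support = ∅ := by
          rw [← Finset.subset_empty]
          refine h4.trans ?_
          simp
        rw [this] at h2
        simp at h2
      · exact hH n (G ⟨0, h0⟩) ∅ (h5 _) (Finset.empty_subset _)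
    induction d' with
    | zero =>
      refine ⟨fun _ => 0, fun _ => ∅, B, ?_, ?_, ?_, ?_, ?_, ?_, ?_, ?_, ?_, le_rfl, ?_⟩
      · intro l j; simp
      · intro l hl; omega
      · intro l _; rfl
      · intro l j hj; simp at hj
      · intro l l' _; simp
      · intro l j hj; simp at hj
      · intro i; exact hE
      · intro i i' _ _ a ha; simp at ha
      · intro i _ a ha; simp at ha
      · intro l F _; simp; exact hε.le
    | succ d' ih =>
      obtain ⟨z, H, M, a1, a2, a3, a4, a5, a6, a7, a8, a9, a10, a11⟩ := ih
      obtain ⟨w, G, b1, b2, b3, b4, b5, b6, b7, b8⟩ := hp M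
      have hsup : ∀ j ∈ w.support, j < max M (w.support.sup id + 1) := by
        intro j hj
        have : j ≤ w.support.sup id := Finset.le_sup (f := id) hj
        omega
      refine ⟨fun l => if l = d' then w else z l,
        fun i => if i < d' * p then H i else if h : i - d' * p < p then G ⟨i - d' * p, h⟩ else ∅,
        max M (w.support.sup id + 1), ?_, ?_, ?_, ?_, ?_, ?_, ?_, ?_, ?_, ?_, ?_⟩
      · intro l j
        by_cases h : l = d'
        · simp only [h, if_true]; exact b1 j
        · simp only [h, if_false]; exact a1 l j
      · intro l hl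
        by_cases h : l = d'
        · simp only [h, if_true]; exact b2
        · simp only [h, if_false]; exact a2 l (by omega)
      · intro l hl
        have h : l ≠ d' := by omega
        simp only [h, if_false]; exact a3 l (by omega)
      · intro l j hj
        by_cases h : l = d'
        · simp only [h, if_true] at hj
          obtain ⟨c1, c2⟩ := b3 j hj
          exact ⟨c1, by omega, hsup j hj⟩
        · simp only [h, if_false] at hj
          obtain ⟨c1, c2, c3⟩ := a4 l j hj
          exact ⟨c1, c2, by omega⟩
      · intro l l' hne
        have hd : ∀ l, Disjoint w.support (z l).support := by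
          intro l
          rw [Finset.disjoint_left]
          intro j hj hj'
          have := (b3 j hj).2
          have := (a4 l j hj').2.2
          omega
        by_cases h : l = d'
        · have h' : l' ≠ d' := by omega
          simp only [h, h', if_true, if_false]
          exact hd l'
        · by_cases h' : l' = d'
          · simp only [h, h', if_true, if_false]
            exact (hd l).symm
          · simp only [h, h', if_false]
            exact a5 l l' hne
      · intro l j hj
        by_cases h : l = d'
        · simp only [h, if_true] at hj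
          obtain ⟨r, -, hr⟩ := Finset.mem_biUnion.1 (b4 hj)
          refine ⟨d' * p + r, ?_, ?_⟩
          · have := r.2; rw [Nat.succ_mul]; omega
          · have h1 : ¬ (d' * p + (r : ℕ) < d' * p) := by omega
            have h2 : d' * p + (r : ℕ) - d' * p < p := by have := r.2; omega
            have h3 : (⟨d' * p + (r : ℕ) - d' * p, h2⟩ : Fin p) = r := by
              ext; simp
            simp only [h1, if_false, h2, dif_pos, h3]
            exact hr
        · simp only [h, if_false] at hj
          obtain ⟨i, hi, hj'⟩ := a6 l j hj
          refine ⟨i, by rw [Nat.succ_mul]; omega, ?_⟩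
          simp only [hi, if_true]; exact hj'
      · intro i
        by_cases h : i < d' * p
        · simp only [h, if_true]; exact a7 i
        · by_cases h2 : i - d' * p < p
          · simp only [h, if_false, h2, dif_pos]; exact b5 _
          · simp only [h, if_false, h2, dif_neg, not_false_iff]; exact hE
      · intro i i' hii hi' a ha b hb
        have hi2 : i' < d' * p + p := by rw [Nat.succ_mul] at hi'; exact hi'
        by_cases h' : i' < d' * p
        · have h : i < d' * p := by omega
          simp only [h, h', if_true] at ha hb
          exact a8 i i' hii h' a ha b hb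
        · have h2' : i' - d' * p < p := by omega
          simp only [h', if_false, h2', dif_pos] at hb
          by_cases h : i < d' * p
          · simp only [h, if_true] at ha
            have c1 := (a9 i h a ha).2
            have c2 := (b3 b (b7 _ b hb)).2
            omega
          · have h2 : i - d' * p < p := by omega
            simp only [h, if_false, h2, dif_pos] at ha
            exact b6 ⟨i - d' * p, h2⟩ ⟨i' - d' * p, h2'⟩ (by
              rw [Fin.lt_def]; simp only; omega) a ha b hb
      · intro i hi a ha
        have hi2 : i < d' * p + p := by rw [Nat.succ_mul] at hi; exact hi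
        by_cases h : i < d' * p
        · simp only [h, if_true] at ha
          have := a9 i h a ha
          exact ⟨this.1, by omega⟩
        · have h2 : i - d' * p < p := by omega
          simp only [h, if_false, h2, dif_pos] at ha
          have c1 := b7 _ a ha
          have c2 := (b3 a c1).2
          exact ⟨by omega, hsup a c1⟩
      · omega
      · intro l F hF
        by_cases h : l = d'
        · simp only [h, if_true]; exact b8 F hF
        · simp only [h, if_false]; exact a11 l F hF
  obtain ⟨z, H, M, a1, a2, a3, a4, a5, a6, a7, a8, a9, a10, a11⟩ := key (max u (d * p)) d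
  refine ⟨z, a1, a2, a3, fun l j hj => ⟨(a4 l j hj).1, by have := (a4 l j hj).2.1; omega⟩, a5, ?_, a11⟩
  have h1 := hU n (d * p) (fun i => H i) (fun i => a7 i)
    (fun i j hij a ha b hb => a8 i j hij j.2 a ha b hb)
    (fun i a ha => by have := (a9 i i.2 a ha).1; omega)
  refine hH (n + 1) _ _ h1 ?_
  intro j hj
  obtain ⟨l, -, hl⟩ := Finset.mem_biUnion.1 hj
  obtain ⟨i, hi, hj'⟩ := a6 l j hl
  exact Finset.mem_biUnion.2 ⟨⟨i, hi⟩, Finset.mem_univ _, hj'⟩

end Pool.Agent.X126.SS
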